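import Pool.Agent.H45.RQ.Avg

/-! Mean values of class numbers of real quadratic fields, the main step. -/

set_option autoImplicit false

namespace Pool.Agent.H45.RQ

open Finset Filter NumberField Pool.Agent.H38R2.CG Pool.Agent.Q276.PL
open Pool.Agent.Q149.PL (isFund_dsc dsc_le le_dsc dsc_or dsc_inj)
open scoped Classical

theorem sqrt_dsc (d : ℕ) : √(dsc d : ℝ) ≤ 2 * √(d : ℝ) := by
  have hD4 : (dsc d : ℝ) ≤ 4 * d := by exact_mod_cast dsc_le d
  have h2 : √(dsc d : ℝ) ≤ √(4 * d : ℝ) := Real.sqrt_le_sqrt hD4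
  have h3 : √(4 * d : ℝ) = 2 * √(d : ℝ) := by
    rw [Real.sqrt_mul (by norm_num), show (4 : ℝ) = 2 ^ 2 by norm_num,
      Real.sqrt_sq (by norm_num)]
  linarith

/-- the class number from a lower bound of the regulator -/
theorem h_reg {d : ℕ} (h1 : 1 < d) (hs : Squarefree d) {B : ℝ}
    (hB : ¬ SmallUnit (dsc d) (Real.exp B)) :
    B * hnum d ≤ √(d : ℝ) * Lone (dsc d) := by
  have hrk := finrank_QS h1 hs
  have hex := exists_sqrt d
  have hcnf := Pool.Agent.Q210.PL.cnf (QS d) d h1 hs hrk hex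
  obtain ⟨t, u, ht, hu, hn, hR⟩ := Pool.Agent.Q210.PL.reg (QS d) d h1 hs hrk hex
  have hbig : B ≤ Units.regulator (QS d) := by
    rw [hR]
    have hD : (0 : ℝ) ≤ √(dsc d : ℝ) := Real.sqrt_nonneg _
    have ht' : (0 : ℝ) < t := by exact_mod_cast ht
    have hu' : (0 : ℝ) < u := by exact_mod_cast hu
    rw [Real.le_log_iff_exp_le (by positivity)]
    by_contra hcon
    exact hB ⟨t, u, ht, hu, hn, (not_le.1 hcon).le⟩
  rw [← hnum_eq] at hcnf
  have hL : 0 ≤ Lone (dsc d) := Pool.Agent.Q79.PL.lnn _ (isFund_dsc h1 hs)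
  have h4 := sqrt_dsc d
  have h5 : (0 : ℝ) ≤ hnum d := Nat.cast_nonneg _
  nlinarith [mul_le_mul_of_nonneg_right h4 hL, mul_le_mul_of_nonneg_right hbig h5]

theorem five_le_dsc {d : ℕ} (h1 : 1 < d) : 5 ≤ dsc d := by
  unfold dsc
  split_ifs <;> omega

/-- the trivial bound -/
theorem h_triv : ∃ C : ℝ, 1 ≤ C ∧ ∀ d : ℕ, 1 < d → Squarefree d →
    (hnum d : ℝ) ≤ C * √(d : ℝ) * (1 + Real.log d) := by
  obtain ⟨C, hC, h⟩ := lone_le
  refine ⟨9 * C, by linarith, fun d h1 hs => ?_⟩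
  have hD5 : (5 : ℝ) ≤ dsc d := by exact_mod_cast five_le_dsc h1
  have hs2 : (2 : ℝ) ≤ √(dsc d : ℝ) := by
    apply Real.le_sqrt_of_sq_le
    linarith
  have hsu : ¬ SmallUnit (dsc d) (Real.exp (1 / 3)) := by
    rintro ⟨t, u, ht, hu, -, hle⟩
    have ht' : (1 : ℝ) ≤ t := by exact_mod_cast ht
    have hu' : (1 : ℝ) ≤ u := by exact_mod_cast hu
    have h2 : (3 : ℝ) / 2 ≤ ((t : ℝ) + u * √(dsc d : ℝ)) / 2 := by nlinarith
    have h3 : Real.exp (1 / 3) < 3 / 2 := by
      rw [← Real.lt_log_iff_exp_lt (by norm_num)]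
      have h4 := Real.log_two_gt_d9
      have h5 : Real.log ((3 / 2 : ℝ)) = Real.log 3 - Real.log 2 := by
        rw [Real.log_div (by norm_num) (by norm_num)]
      have h6 : Real.log (9 / 8 : ℝ) = 2 * Real.log 3 - 3 * Real.log 2 := by
        rw [Real.log_div (by norm_num) (by norm_num), show (9 : ℝ) = 3 ^ 2 by norm_num,
          show (8 : ℝ) = 2 ^ 3 by norm_num, Real.log_pow, Real.log_pow]
        norm_num
      have h7 : 1 - (9 / 8 : ℝ)⁻¹ ≤ Real.log (9 / 8 : ℝ) :=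
        Real.one_sub_inv_le_log_of_pos (by norm_num)
      norm_num at h7
      linarith
    linarith
  have h2 := h_reg h1 hs hsu
  have h3 := h (dsc d) (isFund_dsc h1 hs)
  have hd1 : (1 : ℝ) < d := by exact_mod_cast h1
  have hl0 : 0 ≤ Real.log d := Real.log_nonneg hd1.le
  have hl : Real.log (dsc d) ≤ 2 + Real.log d := by
    have h4 : Real.log (dsc d) ≤ Real.log (4 * d) := by
      apply Real.log_le_log (by linarith)
      exact_mod_cast dsc_le d
    rw [Real.log_mul (by norm_num) (by linarith)] at h4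
    have h5 : Real.log 4 ≤ 2 := by
      rw [show (4 : ℝ) = 2 ^ 2 by norm_num, Real.log_pow]
      have := Real.log_two_lt_d9
      push_cast
      linarith
    linarith
  have h6 : Lone (dsc d) ≤ C * (3 * (1 + Real.log d)) := by
    refine h3.trans (mul_le_mul_of_nonneg_left ?_ (by linarith))
    linarith
  have h7 : √(d : ℝ) * Lone (dsc d) ≤ √(d : ℝ) * (C * (3 * (1 + Real.log d))) :=
    mul_le_mul_of_nonneg_left h6 (Real.sqrt_nonneg _)
  nlinarith

/-- sums over the radicands and over the discriminants -/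
theorem sum_dsc (s t : Finset ℕ) (hst : ∀ d ∈ s, dsc d ∈ t) (ht : ∀ D ∈ t, IsFund D) :
    ∑ d ∈ s, Lone (dsc d) ≤ ∑ D ∈ t, Lone D := by
  rw [← Finset.sum_image (f := Lone) (g := dsc) (fun a _ b _ hab => dsc_inj hab)]
  refine Finset.sum_le_sum_of_subset_of_nonneg ?_ fun D hD _ => Pool.Agent.Q79.PL.lnn D (ht D hD)
  intro D hD
  obtain ⟨d, hd, rfl⟩ := Finset.mem_image.1 hD
  exact hst d hd

/-- the sum of the class numbers over a family -/
theorem split : ∃ C : ℝ, 1 ≤ C ∧ ∀ (X : ℕ) (B : ℝ) (P : ℕ → Prop), 2 ≤ X → 0 < B →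
    ∑ d ∈ (Finset.Icc 2 X).filter (fun d => Squarefree d ∧ P d), (hnum d : ℝ) ≤
      C * √(X : ℝ) * (1 + Real.log X) * (((Finset.Icc 2 X).filter (fun d => Squarefree d ∧
        SmallUnit (dsc d) (Real.exp B))).card : ℝ) +
      √(X : ℝ) / B * ∑ d ∈ (Finset.Icc 2 X).filter (fun d => Squarefree d ∧ P d), Lone (dsc d) := by
  obtain ⟨C, hC, h⟩ := h_triv
  refine ⟨C, hC, fun X B P hX hB => ?_⟩
  have hX1 : (1 : ℝ) ≤ X := by exact_mod_cast (by omega : 1 ≤ X)
  have hlX : 0 ≤ Real.log X := Real.log_nonneg hX1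
  obtain ⟨S, hS⟩ : ∃ S, S = (Finset.Icc 2 X).filter (fun d => Squarefree d ∧ P d) := ⟨_, rfl⟩
  rw [← hS]
  have hmem : ∀ d ∈ S, 2 ≤ d ∧ d ≤ X ∧ Squarefree d := by
    intro d hd
    rw [hS, Finset.mem_filter, Finset.mem_Icc] at hd
    exact ⟨hd.1.1, hd.1.2, hd.2.1⟩
  rw [← Finset.sum_filter_add_sum_filter_not S (fun d => SmallUnit (dsc d) (Real.exp B))]
  refine add_le_add ?_ ?_
  · have h1 : ∀ d ∈ S.filter (fun d => SmallUnit (dsc d) (Real.exp B)),
        (hnum d : ℝ) ≤ C * √(X : ℝ) * (1 + Real.log X) := by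
      intro d hd
      obtain ⟨h2, h3, h4⟩ := hmem d (Finset.mem_filter.1 hd).1
      have hd1 : (1 : ℝ) < d := by exact_mod_cast (by omega : 1 < d)
      have hdX : (d : ℝ) ≤ X := by exact_mod_cast h3
      refine (h d (by omega) h4).trans ?_
      have h5 : √(d : ℝ) ≤ √(X : ℝ) := Real.sqrt_le_sqrt hdX
      have h6 : Real.log d ≤ Real.log X := Real.log_le_log (by linarith) hdX
      have h7 : 0 ≤ Real.log d := Real.log_nonneg hd1.le
      gcongr
    refine (Finset.sum_le_card_nsmul _ _ _ h1).trans ?_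
    rw [nsmul_eq_mul, mul_comm]
    apply mul_le_mul_of_nonneg_left _ (by positivity)
    have h2 : S.filter (fun d => SmallUnit (dsc d) (Real.exp B)) ⊆
        (Finset.Icc 2 X).filter (fun d => Squarefree d ∧ SmallUnit (dsc d) (Real.exp B)) := by
      intro d hd
      rw [Finset.mem_filter] at hd ⊢
      obtain ⟨h3, h4, h5⟩ := hmem d hd.1
      exact ⟨Finset.mem_Icc.2 ⟨h3, h4⟩, h5, hd.2⟩
    exact_mod_cast Finset.card_le_card h2
  · rw [Finset.mul_sum]
    refine le_trans (Finset.sum_le_sum (g := fun d => √(X : ℝ) / B * Lone (dsc d)) fun d hd => ?_) ?_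
    · rw [Finset.mem_filter] at hd
      obtain ⟨h3, h4, h5⟩ := hmem d hd.1
      have h6 := h_reg (by omega : 1 < d) h5 hd.2
      have hdX : (d : ℝ) ≤ X := by exact_mod_cast h4
      have h7 : √(d : ℝ) ≤ √(X : ℝ) := Real.sqrt_le_sqrt hdX
      have h8 : 0 ≤ Lone (dsc d) := Pool.Agent.Q79.PL.lnn _ (isFund_dsc (by omega) h5)
      rw [div_mul_eq_mul_div, le_div_iff₀ hB, mul_comm]
      exact h6.trans (mul_le_mul_of_nonneg_right h7 h8)
    · refine Finset.sum_le_sum_of_subset_of_nonneg (Finset.filter_subset _ _) fun d hd _ => ?_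
      obtain ⟨h3, h4, h5⟩ := hmem d hd
      have h8 : 0 ≤ Lone (dsc d) := Pool.Agent.Q79.PL.lnn _ (isFund_dsc (by omega) h5)
      positivity

end Pool.Agent.H45.RQ
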