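import Pool.Agent.H45.RQ.Field
import Pool.Agent.H45.Lib.Ts3997aac3.Q276.PL.All
import Pool.Agent.H45.Lib.Ts3997aac3.Q149.PL.CLN
import Pool.Agent.H45.Lib.Ts3997aac3.Q210.PL.CNF
import Pool.Agent.H45.Lib.Ts3997aac3.Q210.PL.REG
import Pool.Agent.H45.Lib.Ts3997aac3.Q79.PL.All

/-! Mean values of class numbers of real quadratic fields. -/

set_option autoImplicit false

namespace Pool.Agent.H45.RQ

open Finset Filter NumberField Pool.Agent.H38R2.CG Pool.Agent.Q276.PL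
open scoped Classical

theorem sum_inv_le (N : ℕ) : ∑ n ∈ Finset.Icc 1 N, (1 : ℝ) / n ≤ 1 + Real.log N := by
  have h := harmonic_le_one_add_log N
  rw [harmonic_eq_sum_Icc] at h
  push_cast at h
  simpa [one_div] using h

theorem lone_le : ∃ C : ℝ, 1 ≤ C ∧ ∀ D : ℕ, IsFund D → Lone D ≤ C * (1 + Real.log D) := by
  obtain ⟨C, hC, h⟩ := Pool.Agent.Q79.PL.p_N3a
  refine ⟨C + 1, by linarith, fun D hD => ?_⟩
  have hD1 : 1 < D := hD.1
  have hD1' : (1 : ℝ) < D := by exact_mod_cast hD1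
  have hlog : 0 ≤ Real.log D := Real.log_nonneg hD1'.le
  have h1 := h D hD D hD1.le
  have h2 : Lone D ≤ ∑ n ∈ Finset.Icc 1 D, (chi D n : ℝ) / n + C * √(D : ℝ) * Real.log D / D := by
    have := (abs_le.1 h1).2
    linarith
  have h3 : ∑ n ∈ Finset.Icc 1 D, (chi D n : ℝ) / n ≤ 1 + Real.log D := by
    refine le_trans (Finset.sum_le_sum fun n hn => ?_) (sum_inv_le D)
    have hn1 : (1 : ℝ) ≤ n := by exact_mod_cast (Finset.mem_Icc.1 hn).1
    exact div_le_div_of_nonneg_right ((abs_le.1 (LMh.chi_abs_le' D n)).2) (by linarith)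
  have h4 : C * √(D : ℝ) * Real.log D / D ≤ C * Real.log D := by
    rw [div_le_iff₀ (by linarith)]
    have hs : √(D : ℝ) ≤ D := by
      rw [Real.sqrt_le_left (by linarith)]
      nlinarith
    have : 0 ≤ C * Real.log D := by positivity
    nlinarith
  nlinarith

/-- dyadic summation -/
theorem dyadic (g : ℕ → ℝ) (hg : ∀ D, 0 ≤ g D) (c : ℝ) (hc : 0 ≤ c) (T : ℕ) (hT : 1 ≤ T)
    (h : ∀ k : ℕ, T ≤ 2 * k → ∑ D ∈ Finset.Ioc k (2 * k), g D ≤ c * k) :
    ∀ Y : ℕ, ∑ D ∈ Finset.Ioc T Y, g D ≤ 3 * c * Y := by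
  intro Y
  induction Y using Nat.strong_induction_on with
  | _ Y ih =>
    by_cases hY : Y ≤ T
    · rw [Finset.Ioc_eq_empty (by omega), Finset.sum_empty]
      positivity
    · push Not at hY
      obtain ⟨k, hk⟩ : ∃ k, k = (Y + 1) / 2 := ⟨_, rfl⟩
      have hk1 : k < Y := by omega
      have hk2 : Y ≤ 2 * k := by omega
      have hk3 : 2 * k ≤ Y + 1 := by omega
      have h1 := ih k hk1
      have h2 := h k (by omega)
      have hsub : Finset.Ioc T Y ⊆ Finset.Ioc T k ∪ Finset.Ioc k (2 * k) := by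
        intro D hD
        rw [Finset.mem_Ioc] at hD
        rw [Finset.mem_union, Finset.mem_Ioc, Finset.mem_Ioc]
        omega
      have h3 : ∑ D ∈ Finset.Ioc T Y, g D ≤
          ∑ D ∈ Finset.Ioc T k, g D + ∑ D ∈ Finset.Ioc k (2 * k), g D := by
        refine (Finset.sum_le_sum_of_subset_of_nonneg hsub fun D _ _ => hg D).trans ?_
        rw [← Finset.sum_union_inter]
        have : 0 ≤ ∑ D ∈ Finset.Ioc T k ∩ Finset.Ioc k (2 * k), g D :=
          Finset.sum_nonneg fun D _ => hg D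
        linarith
      have hk4 : (2 : ℝ) * k ≤ Y + 1 := by exact_mod_cast hk3
      have hY2 : (2 : ℝ) ≤ Y := by exact_mod_cast (by omega : 2 ≤ Y)
      nlinarith

/-- the first moment -/
theorem sum_all : ∃ C : ℝ, 0 ≤ C ∧ ∀ Y : ℕ,
    ∑ D ∈ (Finset.Icc 1 Y).filter IsFund, Lone D ≤ C * Y := by
  obtain ⟨C0, X0, h⟩ := Pool.Agent.Q79.PL.lav
  obtain ⟨g, hg⟩ : ∃ g : ℕ → ℝ, g = fun D => if IsFund D then Lone D else 0 := ⟨_, rfl⟩
  have hg0 : ∀ D, 0 ≤ g D := by
    intro D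
    rw [hg]
    show 0 ≤ if IsFund D then Lone D else 0
    split_ifs with hD
    · exact Pool.Agent.Q79.PL.lnn D hD
    · exact le_rfl
  have hsum : ∀ s : Finset ℕ, ∑ D ∈ s.filter IsFund, Lone D = ∑ D ∈ s, g D := by
    intro s
    rw [Finset.sum_filter, hg]
  obtain ⟨M, hM⟩ : ∃ M, M = ∑ D ∈ Finset.Icc 1 (2 * X0), g D := ⟨_, rfl⟩
  have hM0 : 0 ≤ M := by rw [hM]; exact Finset.sum_nonneg fun D _ => hg0 D
  have hblk : ∀ k : ℕ, 1 ≤ 2 * k → ∑ D ∈ Finset.Ioc k (2 * k), g D ≤ max C0 M * k := by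
    intro k hk
    have hk1 : (1 : ℝ) ≤ k := by exact_mod_cast (by omega : 1 ≤ k)
    rcases le_or_gt X0 k with h1 | h1
    · rw [← hsum]
      refine (h k h1).trans ?_
      exact mul_le_mul_of_nonneg_right (le_max_left _ _) (by linarith)
    · have h2 : ∑ D ∈ Finset.Ioc k (2 * k), g D ≤ M := by
        rw [hM]
        refine Finset.sum_le_sum_of_subset_of_nonneg ?_ fun D _ _ => hg0 D
        intro D hD
        rw [Finset.mem_Ioc] at hD
        rw [Finset.mem_Icc]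
        omega
      have h3 := le_max_right C0 M
      nlinarith
  have hmax : 0 ≤ max C0 M := hM0.trans (le_max_right _ _)
  refine ⟨3 * max C0 M, by positivity, fun Y => ?_⟩
  rw [hsum]
  have h5 := dyadic g hg0 (max C0 M) hmax 1 le_rfl hblk Y
  refine le_trans ?_ h5
  have hsub : ∀ D ∈ Finset.Icc 1 Y, D ∉ Finset.Ioc 1 Y → g D = 0 := by
    intro D hD hD'
    rw [Finset.mem_Icc] at hD
    rw [Finset.mem_Ioc] at hD'
    have h1 : D = 1 := by omega
    rw [hg, h1]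
    show (if IsFund 1 then Lone 1 else 0) = 0
    rw [if_neg]
    intro h2
    exact absurd h2.1 (by norm_num)
  have hss : Finset.Ioc 1 Y ⊆ Finset.Icc 1 Y := Finset.Ioc_subset_Icc_self
  rw [← Finset.sum_subset hss hsub]

/-- the first moment over the prime radicands -/
theorem sum_prime : ∃ (C : ℝ) (X1 : ℕ), 0 ≤ C ∧ ∀ X ≥ X1, ∀ Y : ℕ,
    ∑ D ∈ (Finset.Ioc (Nat.sqrt X) Y).filter (fun D => IsFund D ∧ ∃ p : ℕ, p.Prime ∧
      (D = p ∨ D = 4 * p)), Lone D ≤ C * Y / Real.log X := by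
  obtain ⟨C0, X0, h⟩ := Pool.Agent.Q79.PL.lap
  obtain ⟨P, hP⟩ : ∃ P : ℕ → Prop, P = fun D => IsFund D ∧ ∃ p : ℕ, p.Prime ∧
      (D = p ∨ D = 4 * p) := ⟨_, rfl⟩
  obtain ⟨g, hg⟩ : ∃ g : ℕ → ℝ, g = fun D => if P D then Lone D else 0 := ⟨_, rfl⟩
  have hg0 : ∀ D, 0 ≤ g D := by
    intro D
    rw [hg]
    show 0 ≤ if P D then Lone D else 0
    split_ifs with hD
    · rw [hP] at hD
      exact Pool.Agent.Q79.PL.lnn D hD.1
    · exact le_rfl
  have hsum : ∀ s : Finset ℕ, ∑ D ∈ s.filter (fun D => IsFund D ∧ ∃ p : ℕ, p.Prime ∧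
      (D = p ∨ D = 4 * p)), Lone D = ∑ D ∈ s, g D := by
    intro s
    rw [Finset.sum_filter]
    refine Finset.sum_congr rfl fun D _ => ?_
    rw [hg]
    show _ = if P D then Lone D else 0
    by_cases hD : P D
    · rw [if_pos hD]
      rw [hP] at hD
      rw [if_pos hD]
    · rw [if_neg hD]
      rw [hP] at hD
      rw [if_neg hD]
  refine ⟨3 * (8 * |C0|), max (16 * (X0 + 1) ^ 2) 65536, by positivity, fun X hX Y => ?_⟩
  rw [hsum]
  have hX1 : 16 * (X0 + 1) ^ 2 ≤ X := (le_max_left _ _).trans hX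
  have hX2 : 65536 ≤ X := (le_max_right _ _).trans hX
  obtain ⟨T, hT⟩ : ∃ T, T = Nat.sqrt X := ⟨_, rfl⟩
  have hT1 : 4 * (X0 + 1) ≤ T := by
    rw [hT, Nat.le_sqrt]
    calc 4 * (X0 + 1) * (4 * (X0 + 1)) = 16 * (X0 + 1) ^ 2 := by ring
      _ ≤ X := hX1
  have hT2 : 256 ≤ T := by
    rw [hT, Nat.le_sqrt]
    refine le_trans (le_of_eq ?_) hX2
    norm_num
  have hXT : X < (T + 1) * (T + 1) := by rw [hT]; exact Nat.lt_succ_sqrt X
  have hXr : (1 : ℝ) < X := by
    have : (65536 : ℝ) ≤ X := by exact_mod_cast hX2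
    linarith
  have hl0 : 0 < Real.log X := Real.log_pos hXr
  rw [← hT]
  have key := dyadic g hg0 (8 * |C0| / Real.log X) (by positivity) T (by omega) (by
    intro k hk
    have hk1 : X0 ≤ k := by omega
    have h1 := h k hk1
    rw [hsum] at h1
    refine h1.trans ?_
    have hk2 : (128 : ℝ) ≤ k := by
      have : 128 ≤ k := by omega
      exact_mod_cast this
    have hkX : (X : ℝ) ≤ (k : ℝ) ^ 4 := by
      have h2 : T + 1 ≤ 4 * k := by omega
      have h3 : X ≤ (4 * k) * (4 * k) := hXT.le.trans (Nat.mul_le_mul h2 h2)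
      have h4 : (X : ℝ) ≤ (4 * k) * (4 * k) := by exact_mod_cast h3
      have h5 : (16 : ℝ) ≤ (k : ℝ) ^ 2 :=
        le_trans (by norm_num : (16 : ℝ) ≤ 128 ^ 2) (pow_le_pow_left₀ (by norm_num) hk2 2)
      calc (X : ℝ) ≤ (4 * k) * (4 * k) := h4
        _ = 16 * (k : ℝ) ^ 2 := by ring
        _ ≤ (k : ℝ) ^ 2 * (k : ℝ) ^ 2 := mul_le_mul_of_nonneg_right h5 (by positivity)
        _ = (k : ℝ) ^ 4 := by ring
    have hlk : Real.log X ≤ 4 * Real.log k := by
      have h2 : Real.log X ≤ Real.log ((k : ℝ) ^ 4) := Real.log_le_log (by linarith) hkX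
      rw [Real.log_pow] at h2
      simpa using h2
    have hlk0 : 0 < Real.log k := Real.log_pos (by linarith)
    calc C0 * k / Real.log k ≤ |C0| * k / Real.log k := by
          apply div_le_div_of_nonneg_right _ hlk0.le
          exact mul_le_mul_of_nonneg_right (le_abs_self _) (by linarith)
      _ ≤ |C0| * k / (Real.log X / 8) := by
          apply div_le_div_of_nonneg_left (by positivity) (by positivity)
          linarith
      _ = 8 * |C0| / Real.log X * k := by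
          field_simp) Y
  refine key.trans (le_of_eq ?_)
  field_simp

end Pool.Agent.H45.RQ
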