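import Pool.Agent.H45.RQ.Avg2

/-! Mean values of class numbers of real quadratic fields, the end. -/

set_option autoImplicit false

namespace Pool.Agent.H45.RQ

open Finset Filter NumberField Pool.Agent.H38R2.CG Pool.Agent.Q276.PL
open Pool.Agent.Q149.PL (isFund_dsc dsc_le le_dsc dsc_or dsc_inj)
open scoped Classical

theorem log_tend : Tendsto (fun X : ℕ => Real.log X) atTop atTop :=
  Real.tendsto_log_atTop.comp tendsto_natCast_atTop_atTop

theorem exp_tend' {s k : ℝ} (hs : 0 < s) :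
    Tendsto (fun X : ℕ => Real.log X ^ k * Real.exp (-(Real.log X ^ s))) atTop (nhds 0) := by
  have h1 := tendsto_rpow_mul_exp_neg_mul_atTop_nhds_zero (k / s) 1 one_pos
  have h2 : Tendsto (fun X : ℕ => Real.log X ^ s) atTop atTop :=
    (tendsto_rpow_atTop hs).comp log_tend
  refine (h1.comp h2).congr' ?_
  filter_upwards [eventually_ge_atTop 1] with X hX
  have hl : 0 ≤ Real.log X := Real.log_nonneg (by exact_mod_cast hX)
  show (Real.log X ^ s) ^ (k / s) * Real.exp (-1 * Real.log X ^ s) = _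
  rw [← Real.rpow_mul hl, mul_div_cancel₀ _ hs.ne', neg_one_mul]

/-- a family whose first moment of `L(1, χ)` is known -/
theorem fin_gen {δ κ : ℝ} (hδ : 0 < δ) (hκ : 0 ≤ κ) (P : ℕ → Prop) (A : ℝ) (hA : ∀ᶠ X : ℕ in atTop,
    ∑ d ∈ (Finset.Icc 2 X).filter (fun d => Squarefree d ∧ P d), Lone (dsc d) ≤
      A * X / Real.log X ^ κ) :
    ∀ᶠ X : ℕ in atTop,
      ∑ d ∈ (Finset.Icc 2 X).filter (fun d => Squarefree d ∧ P d), (hnum d : ℝ) ≤
      (X : ℝ) ^ (3 / 2 : ℝ) / Real.log X ^ (3 / 2 + κ - δ) := by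
  obtain ⟨δ', hδ'⟩ : ∃ δ', δ' = min (δ / 2) (1 / 4) := ⟨_, rfl⟩
  have hd0 : 0 < δ' := by rw [hδ']; exact lt_min (by linarith) (by norm_num)
  have hd1 : δ' ≤ δ / 2 := by rw [hδ']; exact min_le_left _ _
  have hd2 : δ' ≤ 1 / 4 := by rw [hδ']; exact min_le_right _ _
  obtain ⟨C, hC, hsplit⟩ := split
  obtain ⟨M, hM⟩ := rgb_true δ' hd0 (by linarith)
  have ev1 := ((exp_tend' (s := δ' / 8) (k := 5 / 2 + κ) (by positivity)).const_mul
    (2 * C * |M|)).eventually (gt_mem_nhds (show 2 * C * |M| * 0 < 1 / 2 by norm_num))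
  have ev2 : ∀ᶠ X : ℕ in atTop, 2 * |A| ≤ Real.log X ^ (δ - δ') :=
    ((tendsto_rpow_atTop (show 0 < δ - δ' by linarith)).comp log_tend).eventually_ge_atTop _
  have ev3 : ∀ᶠ X : ℕ in atTop, (1 : ℝ) ≤ Real.log X := log_tend.eventually_ge_atTop 1
  filter_upwards [hA, ev1, ev2, ev3, eventually_ge_atTop 2] with X h1 h2 h3 h4 h5
  obtain ⟨x, hx⟩ : ∃ x, x = Real.log X := ⟨_, rfl⟩
  rw [← hx] at h1 h2 h3 h4 ⊢
  have hx0 : 0 < x := by linarith
  have hX0 : (0 : ℝ) < X := by exact_mod_cast (by omega : 0 < X)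
  have hXX : (X : ℝ) ^ (3 / 2 : ℝ) = X * √(X : ℝ) := by
    rw [show (3 / 2 : ℝ) = 1 + 1 / 2 by norm_num, Real.rpow_add hX0, Real.rpow_one,
      Real.sqrt_eq_rpow]
  have hs := hsplit X (x ^ (3 / 2 - δ')) P h5 (Real.rpow_pos_of_pos hx0 _)
  have hm := hM X h5
  rw [← hx] at hs hm
  refine hs.trans ?_
  rw [hXX]
  have hE : 0 < Real.exp (-(x ^ (δ' / 8))) := Real.exp_pos _
  have hm' : (((Finset.Icc 2 X).filter (fun d => Squarefree d ∧
      SmallUnit (dsc d) (Real.exp (x ^ (3 / 2 - δ'))))).card : ℝ) ≤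
      |M| * X * Real.exp (-(x ^ (δ' / 8))) := by
    refine hm.trans ?_
    have := le_abs_self M
    gcongr
  have hD : 0 < x ^ (3 / 2 + κ - δ) := Real.rpow_pos_of_pos hx0 _
  have t1 : C * √(X : ℝ) * (1 + x) * (((Finset.Icc 2 X).filter (fun d => Squarefree d ∧
      SmallUnit (dsc d) (Real.exp (x ^ (3 / 2 - δ'))))).card : ℝ) ≤
      (X * √(X : ℝ) / x ^ (3 / 2 + κ - δ)) * (1 / 2) := by
    calc C * √(X : ℝ) * (1 + x) * (((Finset.Icc 2 X).filter (fun d => Squarefree d ∧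
      SmallUnit (dsc d) (Real.exp (x ^ (3 / 2 - δ'))))).card : ℝ)
        ≤ C * √(X : ℝ) * (2 * x) * (|M| * X * Real.exp (-(x ^ (δ' / 8)))) := by
          gcongr
          linarith
      _ = (X * √(X : ℝ) / x ^ (3 / 2 + κ - δ)) *
          (2 * C * |M| * (x * x ^ (3 / 2 + κ - δ) * Real.exp (-(x ^ (δ' / 8))))) := by
          field_simp
      _ ≤ (X * √(X : ℝ) / x ^ (3 / 2 + κ - δ)) *
          (2 * C * |M| * (x ^ (5 / 2 + κ) * Real.exp (-(x ^ (δ' / 8))))) := by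
          have e1 : x * x ^ (3 / 2 + κ - δ) ≤ x ^ (5 / 2 + κ) := by
            have e2 : x * x ^ (3 / 2 + κ - δ) = x ^ (1 + (3 / 2 + κ - δ)) := by
              rw [Real.rpow_add hx0, Real.rpow_one]
            rw [e2]
            exact Real.rpow_le_rpow_of_exponent_le h4 (by linarith)
          gcongr
      _ ≤ (X * √(X : ℝ) / x ^ (3 / 2 + κ - δ)) * (1 / 2) :=
          mul_le_mul_of_nonneg_left h2.le (by positivity)
  obtain ⟨W, hW⟩ : ∃ W, W = ∑ d ∈ (Finset.Icc 2 X).filter (fun d => Squarefree d ∧ P d),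
    Lone (dsc d) := ⟨_, rfl⟩
  rw [← hW] at h1 ⊢
  have t2 : √(X : ℝ) / x ^ (3 / 2 - δ') * W ≤
      (X * √(X : ℝ) / x ^ (3 / 2 + κ - δ)) * (1 / 2) := by
    calc √(X : ℝ) / x ^ (3 / 2 - δ') * W
        ≤ √(X : ℝ) / x ^ (3 / 2 - δ') * (A * X / x ^ κ) :=
          mul_le_mul_of_nonneg_left h1 (by positivity)
      _ ≤ √(X : ℝ) / x ^ (3 / 2 - δ') * ((x ^ (δ - δ') / 2) * X / x ^ κ) := by
          have : A ≤ x ^ (δ - δ') / 2 := by
            have := le_abs_self A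
            linarith
          gcongr
      _ = (X * √(X : ℝ) / x ^ (3 / 2 + κ - δ)) * (1 / 2) := by
          have e1 : x ^ (3 / 2 + κ - δ) * x ^ (δ - δ') = x ^ (3 / 2 - δ') * x ^ κ := by
            rw [← Real.rpow_add hx0, ← Real.rpow_add hx0]
            congr 1
            ring
          have e2 : 0 < x ^ (3 / 2 - δ') := Real.rpow_pos_of_pos hx0 _
          have e3 : 0 < x ^ κ := Real.rpow_pos_of_pos hx0 _
          have e4 : x ^ (δ - δ') = x ^ (3 / 2 - δ') * x ^ κ / x ^ (3 / 2 + κ - δ) := by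
            rw [← e1]
            field_simp
          rw [e4]
          field_simp
  linarith

theorem first_all : ∃ A : ℝ, ∀ᶠ X : ℕ in atTop,
    ∑ d ∈ (Finset.Icc 2 X).filter (fun d => Squarefree d ∧ True), Lone (dsc d) ≤
      A * X / Real.log X ^ (0 : ℝ) := by
  obtain ⟨C, hC, h⟩ := sum_all
  refine ⟨4 * C, Eventually.of_forall fun X => ?_⟩
  rw [Real.rpow_zero, div_one]
  have h1 := h (4 * X)
  have h2 := sum_dsc ((Finset.Icc 2 X).filter (fun d => Squarefree d ∧ True))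
    ((Finset.Icc 1 (4 * X)).filter IsFund) (by
      intro d hd
      rw [Finset.mem_filter, Finset.mem_Icc] at hd ⊢
      have e1 := dsc_le d
      have e2 := le_dsc d
      exact ⟨⟨by omega, by omega⟩, isFund_dsc (by omega) hd.2.1⟩)
    (fun D hD => (Finset.mem_filter.1 hD).2)
  refine h2.trans (h1.trans (le_of_eq ?_))
  push_cast
  ring

theorem sqrt_log_ev (C : ℝ) : ∀ᶠ X : ℕ in atTop, |C| * √(X : ℝ) ≤ X / Real.log X := by
  have h1 := (isLittleO_log_rpow_atTop (r := 1 / 2) (by norm_num)).tendsto_div_nhds_zero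
  have h2 := (h1.comp tendsto_natCast_atTop_atTop).const_mul |C|
  rw [mul_zero] at h2
  filter_upwards [h2.eventually (gt_mem_nhds (show (0 : ℝ) < 1 by norm_num)),
    eventually_ge_atTop 2] with X hX hX2
  have hX0 : (0 : ℝ) < X := by exact_mod_cast (by omega : 0 < X)
  have hX1 : (1 : ℝ) < X := by exact_mod_cast (by omega : 1 < X)
  have hl : 0 < Real.log X := Real.log_pos hX1
  have hX' : |C| * (Real.log X / (X : ℝ) ^ (1 / 2 : ℝ)) < 1 := hX
  rw [← Real.sqrt_eq_rpow, ← mul_div_assoc, div_lt_one (Real.sqrt_pos.2 hX0)] at hX'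
  rw [le_div_iff₀ hl]
  have h3 : √(X : ℝ) * √(X : ℝ) = X := Real.mul_self_sqrt hX0.le
  have h4 : 0 < √(X : ℝ) := Real.sqrt_pos.2 hX0
  nlinarith

theorem first_prime : ∃ A : ℝ, ∀ᶠ X : ℕ in atTop,
    ∑ d ∈ (Finset.Icc 2 X).filter (fun d => Squarefree d ∧ d.Prime), Lone (dsc d) ≤
      A * X / Real.log X ^ (1 : ℝ) := by
  obtain ⟨C, hC, h⟩ := sum_all
  obtain ⟨C', X1, hC', h'⟩ := sum_prime
  refine ⟨1 + 4 * C', ?_⟩
  filter_upwards [sqrt_log_ev C, eventually_ge_atTop X1] with X hX hX1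
  rw [Real.rpow_one]
  have h1 := h (Nat.sqrt X)
  have h2 := h' X hX1 (4 * X)
  have h3 := sum_dsc ((Finset.Icc 2 X).filter (fun d => Squarefree d ∧ d.Prime))
    ((Finset.Icc 1 (Nat.sqrt X)).filter IsFund ∪ (Finset.Ioc (Nat.sqrt X) (4 * X)).filter
      (fun D => IsFund D ∧ ∃ p : ℕ, p.Prime ∧ (D = p ∨ D = 4 * p))) (by
      intro d hd
      rw [Finset.mem_filter, Finset.mem_Icc] at hd
      have e1 := dsc_le d
      have e2 := le_dsc d
      have e3 := isFund_dsc (by omega) hd.2.1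
      rw [Finset.mem_union, Finset.mem_filter, Finset.mem_filter, Finset.mem_Icc, Finset.mem_Ioc]
      by_cases hc : dsc d ≤ Nat.sqrt X
      · exact Or.inl ⟨⟨by omega, hc⟩, e3⟩
      · exact Or.inr ⟨⟨by omega, by omega⟩, e3, d, hd.2.2, dsc_or d⟩)
    (fun D hD => by
      rw [Finset.mem_union, Finset.mem_filter, Finset.mem_filter] at hD
      rcases hD with hD | hD
      · exact hD.2
      · exact hD.2.1)
  have h4 : ∑ D ∈ (Finset.Icc 1 (Nat.sqrt X)).filter IsFund ∪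
      (Finset.Ioc (Nat.sqrt X) (4 * X)).filter
      (fun D => IsFund D ∧ ∃ p : ℕ, p.Prime ∧ (D = p ∨ D = 4 * p)), Lone D ≤
      ∑ D ∈ (Finset.Icc 1 (Nat.sqrt X)).filter IsFund, Lone D +
      ∑ D ∈ (Finset.Ioc (Nat.sqrt X) (4 * X)).filter
      (fun D => IsFund D ∧ ∃ p : ℕ, p.Prime ∧ (D = p ∨ D = 4 * p)), Lone D := by
    rw [← Finset.sum_union_inter]
    have : 0 ≤ ∑ D ∈ (Finset.Icc 1 (Nat.sqrt X)).filter IsFund ∩
      (Finset.Ioc (Nat.sqrt X) (4 * X)).filter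
      (fun D => IsFund D ∧ ∃ p : ℕ, p.Prime ∧ (D = p ∨ D = 4 * p)), Lone D := by
      refine Finset.sum_nonneg fun D hD => ?_
      rw [Finset.mem_inter, Finset.mem_filter] at hD
      exact Pool.Agent.Q79.PL.lnn D hD.1.2
    linarith
  have h5 : C * (Nat.sqrt X : ℝ) ≤ X / Real.log X := by
    refine le_trans ?_ hX
    have e1 : (Nat.sqrt X : ℝ) ≤ √(X : ℝ) := Real.nat_sqrt_le_real_sqrt
    have e2 := le_abs_self C
    have e3 : (0 : ℝ) ≤ √(X : ℝ) := Real.sqrt_nonneg _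
    exact mul_le_mul e2 e1 (Nat.cast_nonneg _) (abs_nonneg _)
  calc _ ≤ _ := h3
    _ ≤ _ := h4
    _ ≤ C * (Nat.sqrt X : ℝ) + C' * ((4 * X : ℕ) : ℝ) / Real.log X := add_le_add h1 h2
    _ ≤ X / Real.log X + C' * ((4 * X : ℕ) : ℝ) / Real.log X := by linarith
    _ = (1 + 4 * C') * X / Real.log X := by push_cast; ring

theorem fin_all {δ : ℝ} (hδ : 0 < δ) : ∀ᶠ X : ℕ in atTop,
    ∑ d ∈ (Finset.Icc 2 X).filter Squarefree, (hnum d : ℝ) ≤
      (X : ℝ) ^ (3 / 2 : ℝ) / Real.log X ^ (3 / 2 - δ) := by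
  obtain ⟨A, hA⟩ := first_all
  filter_upwards [fin_gen hδ le_rfl (fun _ => True) A (hA.mono fun X hX => by convert hX)] with X hX
  rw [add_zero] at hX
  simpa using hX

theorem fin_prime {δ : ℝ} (hδ : 0 < δ) : ∀ᶠ X : ℕ in atTop,
    ∑ p ∈ (Finset.Icc 2 X).filter Nat.Prime, (hnum p : ℝ) ≤
      (X : ℝ) ^ (3 / 2 : ℝ) / Real.log X ^ (5 / 2 - δ) := by
  obtain ⟨A, hA⟩ := first_prime
  filter_upwards [fin_gen hδ zero_le_one Nat.Prime A (hA.mono fun X hX => by convert hX)] with X hX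
  have e : (3 / 2 : ℝ) + 1 - δ = 5 / 2 - δ := by ring
  rw [e] at hX
  refine le_trans (le_of_eq ?_) hX
  refine Finset.sum_congr ?_ fun _ _ => rfl
  ext p
  simp only [Finset.mem_filter]
  constructor
  · rintro ⟨h1, h2⟩
    exact ⟨h1, (Nat.Prime.prime h2).squarefree, h2⟩
  · rintro ⟨h1, -, h2⟩
    exact ⟨h1, h2⟩

end Pool.Agent.H45.RQ
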