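import Mathlib

/-! The real quadratic field `ℚ(√d)` as a subfield of the real numbers. -/

set_option autoImplicit false

namespace Pool.Agent.H45.RQ

open NumberField

/-- The field `ℚ(√d)`, as a subfield of the real numbers. -/
noncomputable abbrev QS (d : ℕ) : IntermediateField ℚ ℝ := IntermediateField.adjoin ℚ {√(d : ℝ)}

theorem not_isSquare {d : ℕ} (h1 : 1 < d) (hs : Squarefree d) : ¬ IsSquare d := by
  rintro ⟨r, hr⟩
  have h2 := hs r ⟨1, by rw [hr]; ring⟩
  rw [Nat.isUnit_iff] at h2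
  rw [h2] at hr
  omega

theorem int_sqrt (d : ℕ) : IsIntegral ℚ (√(d : ℝ)) := by
  refine ⟨Polynomial.X ^ 2 - Polynomial.C (d : ℚ), ?_, ?_⟩
  · exact Polynomial.monic_X_pow_sub_C _ two_ne_zero
  · simp [Real.sq_sqrt (Nat.cast_nonneg d)]

instance (d : ℕ) : FiniteDimensional ℚ (QS d) :=
  IntermediateField.adjoin.finiteDimensional (int_sqrt d)

instance (d : ℕ) : NumberField (QS d) where
  to_charZero := inferInstance
  to_finiteDimensional := inferInstance

theorem finrank_QS {d : ℕ} (h1 : 1 < d) (hs : Squarefree d) : Module.finrank ℚ (QS d) = 2 := by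
  rw [IntermediateField.adjoin.finrank (int_sqrt d)]
  have hmon : (Polynomial.X ^ 2 - Polynomial.C (d : ℚ)).Monic :=
    Polynomial.monic_X_pow_sub_C _ two_ne_zero
  have hdeg : (Polynomial.X ^ 2 - Polynomial.C (d : ℚ)).natDegree = 2 :=
    Polynomial.natDegree_X_pow_sub_C
  have hle : (minpoly ℚ (√(d : ℝ))).natDegree ≤ 2 := by
    rw [← hdeg]
    apply Polynomial.natDegree_le_of_dvd _ hmon.ne_zero
    apply minpoly.dvd
    simp [Real.sq_sqrt (Nat.cast_nonneg d)]
  have hge : 2 ≤ (minpoly ℚ (√(d : ℝ))).natDegree := by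
    rw [minpoly.two_le_natDegree_iff (int_sqrt d)]
    rintro ⟨q, hq⟩
    have hirr : Irrational (√(d : ℝ)) := by
      rw [irrational_sqrt_natCast_iff]
      exact not_isSquare h1 hs
    apply hirr
    exact ⟨q, by simpa using hq⟩
  omega

theorem exists_sqrt (d : ℕ) : ∃ x : QS d, x ^ 2 = (d : QS d) := by
  refine ⟨⟨√(d : ℝ), IntermediateField.mem_adjoin_simple_self ℚ _⟩, ?_⟩
  apply Subtype.ext
  simp [Real.sq_sqrt (Nat.cast_nonneg d)]

/-- The class number of `ℚ(√d)`. -/
noncomputable def hnum (d : ℕ) : ℕ := Nat.card (ClassGroup (𝓞 (QS d)))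

theorem hnum_eq (d : ℕ) : hnum d = classNumber (QS d) := by
  unfold hnum classNumber
  rw [Nat.card_eq_fintype_card]

end Pool.Agent.H45.RQ
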